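import Mathlib

set_option autoImplicit false

namespace Pool.Agent.Results.MP_f79b02_co.Finite

open SimpleGraph Finset

/-- the growth step: delete the edges of `M` and join the new vertex `none` to the vertices of `M` -/
def grow {V : Type} (G : SimpleGraph V) (M : G.Subgraph) : SimpleGraph (Option V) where
  Adj
    | some a, some b => G.Adj a b ∧ ¬ M.Adj a b
    | some a, none => a ∈ M.verts
    | none, some b => b ∈ M.verts
    | none, none => False
  symm := ⟨by
    rintro (_ | a) (_ | b) h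
    exacts [h, h, h, ⟨h.1.symm, fun k => h.2 k.symm⟩]⟩
  loopless := ⟨by
    rintro (_ | a) h
    exacts [h, h.1.ne rfl]⟩

/-- Builder can guarantee a `k`-clique after exactly `t` rounds starting from `G` -/
def Wins (k : ℕ) : ℕ → ∀ {V : Type}, SimpleGraph V → Prop
  | 0, _, G => ¬ G.CliqueFree k
  | t + 1, _, G => ∃ M : G.Subgraph, M.IsMatching ∧ ∃ A B, Disjoint A B ∧ A ⊔ B = grow G M ∧
      Wins k t A ∧ Wins k t B

def Good (k t : ℕ) {W : Type} (R : SimpleGraph W) : Prop :=
  ∀ (V : Type) (G : SimpleGraph V) (f : R →g G), Function.Injective f → Wins k t G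

def dbl {W : Type} (R : SimpleGraph W) (c : W → ℕ) (w : W) : SimpleGraph (W × Bool × Bool) where
  Adj u v := (∃ b x y, x ≠ w ∧ y ≠ w ∧ R.Adj x y ∧ u = (x, (c x != c w && b), false) ∧
    v = (y, (c y != c w && b), false)) ∨ ∃ x b s, c x ≠ c w ∧ u = (x, b, s) ∧ v = (x, b, !s)
  symm := ⟨by
    rintro _ _ (⟨b, x, y, h1, h2, h3, rfl, rfl⟩ | ⟨x, b, s, h, rfl, rfl⟩)
    · exact Or.inl ⟨b, y, x, h2, h1, h3.symm, rfl, rfl⟩
    · exact Or.inr ⟨x, b, !s, h, rfl, by simp⟩⟩
  loopless := ⟨by
    rintro _ (⟨b, x, y, h1, h2, h3, rfl, e⟩ | ⟨x, b, s, h, rfl, e⟩)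
    · exact h3.ne (congrArg Prod.fst e)
    · simp at e⟩

theorem step {k t : ℕ} {W : Type} {R : SimpleGraph W} {c : W → ℕ} (hc : ∀ x y, R.Adj x y → c x ≠ c y)
    (w : W) (h : Good k t R) : Good k (t + 1) (dbl R c w) := by
  classical
  intro V G f hf
  let M : G.Subgraph :=
    { verts := {u | ∃ x b s, c x ≠ c w ∧ u = f (x, b, s)}
      Adj := fun u v => ∃ x b s, c x ≠ c w ∧ u = f (x, b, s) ∧ v = f (x, b, !s)
      adj_sub := by
        rintro _ _ ⟨x, b, s, h, rfl, rfl⟩
        exact f.map_adj (Or.inr ⟨x, b, s, h, rfl, rfl⟩)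
      edge_vert := fun ⟨x, b, s, h, e, _⟩ => ⟨x, b, s, h, e⟩
      symm := ⟨by
        rintro _ _ ⟨x, b, s, h, rfl, rfl⟩
        exact ⟨x, b, !s, h, rfl, by simp⟩⟩ }
  let g : Bool → W → Option V := fun b x =>
    if x = w then none else some (f (x, (c x != c w && b), false))
  have gi : ∀ b, Function.Injective (g b) := fun b x y e => by
    by_cases h1 : x = w <;> by_cases h2 : y = w <;> simp only [g, h1, h2, if_true, if_false] at e
    · rw [h1, h2]
    · cases e
    · cases e
    · exact congrArg Prod.fst (hf (Option.some_injective _ e))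
  have ga : ∀ b x y, R.Adj x y → (grow G M).Adj (g b x) (g b y) := fun b x y e => by
    have := hc x y e
    by_cases h1 : x = w <;> by_cases h2 : y = w <;> simp only [g, h1, h2, if_true, if_false]
    · exact e.ne (h1.trans h2.symm)
    · exact ⟨y, _, _, h1 ▸ this.symm, rfl⟩
    · exact ⟨x, _, _, h2 ▸ this, rfl⟩
    · refine ⟨f.map_adj (Or.inl ⟨b, x, y, h1, h2, e, rfl, rfl⟩), ?_⟩
      rintro ⟨z, b', s, -, e1, e2⟩
      exact e.ne ((congrArg Prod.fst (hf e1)).trans (congrArg Prod.fst (hf e2)).symm)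
  have le : R.map (g false) ≤ grow G M := by
    rintro _ _ ⟨-, x, y, e, rfl, rfl⟩
    exact ga _ x y e
  have ne : ∀ x y, c x ≠ c w → g false y ≠ g true x := fun x y e k => by
    have h1 : x ≠ w := fun a => e (a ▸ rfl)
    by_cases h2 : y = w <;> simp only [g, h1, h2, if_true, if_false] at k
    · cases k
    · simpa [e] using congrArg (·.2.1) (hf (Option.some_injective _ k))
  refine ⟨M, ?_, R.map (g false), grow G M \ R.map (g false), disjoint_sdiff_self_right,
    sup_sdiff_cancel_right le, h _ _ (Embedding.map ⟨g false, gi _⟩ R).toHom (gi _),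
    h _ _ ⟨g true, fun {x y} e => ⟨ga _ x y e, ?_⟩⟩ (gi _)⟩
  · rintro _ ⟨x, b, s, h, rfl⟩
    refine ⟨f (x, b, !s), ⟨x, b, s, h, rfl, rfl⟩, ?_⟩
    rintro _ ⟨y, b', s', -, e, rfl⟩
    cases hf e
    rfl
  · rintro ⟨-, x', y', -, e1, e2⟩
    have := hc x y e
    by_cases a : c x = c w
    exacts [ne y y' (a ▸ this.symm) e2, ne x x' a e1]

theorem main (k q : ℕ) : ∀ (a t : ℕ) (W : Type) [Fintype W] (R : SimpleGraph W) (c : W → ℕ),
    (∀ x y, R.Adj x y → c x ≠ c y) → (∀ x, c x ≤ q + 1) → #{x | c x = q + 1} ≤ a → Good k t R →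
    ∃ (t : ℕ) (W : Type) (_ : Fintype W) (R : SimpleGraph W), R.CliqueFree 3 ∧ Good k t R := by
  classical
  induction q with
  | zero =>
    intro a t W _ R c h1 h2 _ h4
    refine ⟨t, W, inferInstance, R, Colorable.cliqueFree (n := 2) ⟨Coloring.mk
      (fun x => ⟨c x, by have := h2 x; omega⟩) fun e a => h1 _ _ e (Fin.mk.inj a)⟩ (by omega), h4⟩
  | succ q ih =>
    intro a
    induction a with
    | zero =>
      intro t W _ R c h1 h2 h3 h4
      refine ih _ t W R c h1 (fun x => ?_) le_rfl h4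
      have := h2 x
      have : c x ≠ q + 1 + 1 := by simpa using filter_eq_empty_iff.mp (by simpa using h3) (mem_univ x)
      omega
    | succ a iha =>
      intro t W _ R c h1 h2 h3 h4
      by_cases e : ∃ w, c w = q + 1 + 1
      · obtain ⟨w, hw⟩ := e
        refine iha _ _ (dbl R c w) (fun u => if u.2.2 then (if c u.1 = 0 then 1 else 0) else
          if u.1 = w ∨ (c u.1 = c w ∧ u.2.1) then 0 else c u.1) ?_ (fun u => ?_) ?_ (step h1 w h4)
        · rintro _ _ (⟨b, x, y, a1, a2, a3, rfl, rfl⟩ | ⟨x, b, s, h, rfl, rfl⟩)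
          · have := h1 x y a3
            by_cases b1 : c x = c w <;> by_cases b2 : c y = c w <;> simp [a1, a2, b1, b2] <;> omega
          · have : x ≠ w := fun a => h (a ▸ rfl)
            cases s <;> by_cases c x = 0 <;> simp [*] <;> omega
        · have := h2 u.1
          split_ifs <;> omega
        · have : #(({x | c x = q + 1 + 1} : Finset W).erase w) ≤ a := by
            rw [card_erase_of_mem (by simpa using hw)]; omega
          refine le_trans (card_le_card_of_injOn (·.1) ?_ ?_) this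
          · rintro ⟨x, b, s⟩ h
            simp only [coe_filter, mem_univ, true_and, Set.mem_ofPred_eq] at h
            simp only [coe_erase, coe_filter, mem_univ, true_and, Set.mem_sdiff, Set.mem_ofPred_eq,
              Set.mem_singleton_iff]
            split_ifs at h <;> grind
          · rintro ⟨x, b, s⟩ h ⟨y, b', s'⟩ h' rfl
            simp only [coe_filter, mem_univ, true_and, Set.mem_ofPred_eq] at h h'
            split_ifs at h h' <;> grind
      · exact iha t W R c h1 h2 (by rw [filter_eq_empty_iff.mpr fun x _ a => e ⟨x, a⟩]; simp) h4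

theorem result (k : ℕ) : ∃ (n : ℕ) (G : SimpleGraph (Fin n)), G.CliqueFree 3 ∧ ∃ t, Wins k t G := by
  obtain ⟨t, W, _, R, h1, h2⟩ := main k k _ 0 (Fin k) ⊤ (·.1) (fun x y e => Fin.val_ne_of_ne e)
    (fun x => by omega) le_rfl fun V G f hf => IsContained.not_cliqueFree ⟨⟨f, hf⟩⟩
  let e := Iso.map (Fintype.equivFin W) R
  exact ⟨_, _, h1.comap e.isContained', t, h2 _ _ e.toHom e.injective⟩

end Pool.Agent.Results.MP_f79b02_co.Finite
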